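import Pool.Agent.Helper83.MM.StmtsB8

/-!
Project MM (MP_10bc19_gt), block B8: the gluing function.
-/

open MeasureTheory Set Filter Topology
open scoped ContDiff

namespace Pool.Agent.Helper83.MM

/-- first derivative along a line -/
theorem line_hasDerivAt {k : ℕ} {f : E k → ℝ} (hf : ContDiff ℝ ∞ f) (x y : E k) (t : ℝ) :
    HasDerivAt (fun t : ℝ => f (x + t • y)) (fderiv ℝ f (x + t • y) y) t := by
  have hd : HasFDerivAt f (fderiv ℝ f (x + t • y)) (x + t • y) :=
    (hf.differentiable (by simp)).differentiableAt.hasFDerivAt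
  have hl : HasDerivAt (fun t : ℝ => x + t • y) y t := by
    simpa using ((hasDerivAt_id t).smul_const y).const_add x
  exact hd.comp_hasDerivAt t hl

/-- second derivative along a line -/
theorem line_hasDerivAt2 {k : ℕ} {f : E k → ℝ} (hf : ContDiff ℝ ∞ f) (x y : E k) (t : ℝ) :
    HasDerivAt (fun t : ℝ => fderiv ℝ f (x + t • y) y)
      (fderiv ℝ (fderiv ℝ f) (x + t • y) y y) t := by
  have hf' : ContDiff ℝ ∞ (fderiv ℝ f) := hf.fderiv_right (by simp)
  have hd : HasFDerivAt (fderiv ℝ f) (fderiv ℝ (fderiv ℝ f) (x + t • y)) (x + t • y) :=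
    (hf'.differentiable (by simp)).differentiableAt.hasFDerivAt
  have hl : HasDerivAt (fun t : ℝ => x + t • y) y t := by
    simpa using ((hasDerivAt_id t).smul_const y).const_add x
  have h := hd.comp_hasDerivAt t hl
  exact h.clm_apply (hasDerivAt_const t y) |>.congr_deriv (by simp)

theorem line_deriv2 {k : ℕ} {f : E k → ℝ} (hf : ContDiff ℝ ∞ f) (x y : E k) (t : ℝ) :
    deriv (deriv fun t : ℝ => f (x + t • y)) t = fderiv ℝ (fderiv ℝ f) (x + t • y) y y := by
  have h2 : deriv (fun t : ℝ => f (x + t • y)) = fun t => fderiv ℝ f (x + t • y) y :=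
    funext fun t => (line_hasDerivAt hf x y t).deriv
  rw [h2, (line_hasDerivAt2 hf x y t).deriv]

/-- smooth functions with nonnegative second derivative are convex -/
theorem convex_of_second {k : ℕ} {f : E k → ℝ} (hf : ContDiff ℝ ∞ f)
    (h : ∀ x y, 0 ≤ fderiv ℝ (fderiv ℝ f) x y y) : ConvexOn ℝ univ f := by
  refine ⟨convex_univ, fun x _ y _ a b ha hb hab => ?_⟩
  have hg : ConvexOn ℝ univ (fun t : ℝ => f (x + t • (y - x))) := by
    refine convexOn_of_deriv2_nonneg' convex_univ ?_ ?_ ?_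
    · exact fun t _ => (line_hasDerivAt hf x (y - x) t).differentiableAt.differentiableWithinAt
    · intro t _
      have h2 : deriv (fun t : ℝ => f (x + t • (y - x)))
          = fun t => fderiv ℝ f (x + t • (y - x)) (y - x) :=
        funext fun t => (line_hasDerivAt hf x (y - x) t).deriv
      rw [h2]
      exact (line_hasDerivAt2 hf x (y - x) t).differentiableAt.differentiableWithinAt
    · intro t _
      simp only [Function.iterate_succ, Function.iterate_zero, Function.comp_apply, id_eq]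
      rw [line_deriv2 hf]
      exact h _ _
  have h1 := hg.2 (mem_univ (0 : ℝ)) (mem_univ (1 : ℝ)) ha hb hab
  simp only [smul_eq_mul, mul_zero, mul_one, zero_add, zero_smul, add_zero, one_smul,
    add_sub_cancel] at h1
  have e : x + b • (y - x) = a • x + b • y := by
    have : a = 1 - b := by linarith
    rw [this, sub_smul, smul_sub, one_smul]
    abel
  rw [← e]
  simpa [smul_eq_mul] using h1

/-! ### the function `κ` -/

/-- the primitive of the cut-off function -/
noncomputable def kap (t : ℝ) : ℝ := ∫ s in (0 : ℝ)..t, Real.smoothTransition ((s - 1) / 3)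

theorem kap_cont : Continuous fun s : ℝ => Real.smoothTransition ((s - 1) / 3) :=
  Real.smoothTransition.continuous.comp (by fun_prop)

theorem kap_hasDerivAt (t : ℝ) : HasDerivAt kap (Real.smoothTransition ((t - 1) / 3)) t :=
  intervalIntegral.integral_hasDerivAt_right (kap_cont.intervalIntegrable _ _)
    (kap_cont.stronglyMeasurableAtFilter _ _) kap_cont.continuousAt

theorem kap_deriv : deriv kap = fun t => Real.smoothTransition ((t - 1) / 3) :=
  funext fun t => (kap_hasDerivAt t).deriv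

theorem smooth_st : ContDiff ℝ ∞ fun t : ℝ => Real.smoothTransition ((t - 1) / 3) :=
  Real.smoothTransition.contDiff.comp (by fun_prop)

theorem kap_smooth : ContDiff ℝ ∞ kap := by
  rw [contDiff_infty_iff_deriv]
  exact ⟨fun t => (kap_hasDerivAt t).differentiableAt, by rw [kap_deriv]; exact smooth_st⟩

theorem kap_zero {t : ℝ} (ht : t ≤ 1) : kap t = 0 := by
  unfold kap
  rw [intervalIntegral.integral_congr (g := fun _ => (0 : ℝ))]
  · simp
  · intro s hs
    have : s ≤ 1 := by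
      rcases le_total 0 t with h | h
      · rw [uIcc_of_le h] at hs
        exact hs.2.trans ht
      · rw [uIcc_of_ge h] at hs
        linarith [hs.2]
    exact Real.smoothTransition.zero_of_nonpos (by linarith)

theorem kap_four {t : ℝ} (ht : 4 ≤ t) : kap t = t - 4 + kap 4 := by
  have h : kap t = kap 4 + ∫ s in (4 : ℝ)..t, Real.smoothTransition ((s - 1) / 3) := by
    unfold kap
    rw [intervalIntegral.integral_add_adjacent_intervals] <;>
      exact kap_cont.intervalIntegrable _ _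
  rw [h, intervalIntegral.integral_congr (g := fun _ => (1 : ℝ))]
  · simp
    ring
  · intro s hs
    rw [uIcc_of_le ht] at hs
    exact Real.smoothTransition.one_of_one_le (by linarith [hs.1])

/-- the second derivative of `κ (‖x‖² / R²)` -/
theorem kap_second {k : ℕ} (r : ℝ) (x y : E k) :
    2 * r * Real.smoothTransition ((r * ‖x‖ ^ 2 - 1) / 3) * ‖y‖ ^ 2 ≤
      fderiv ℝ (fderiv ℝ fun x : E k => kap (r * ‖x‖ ^ 2)) x y y := by
  have hsm : ContDiff ℝ ∞ fun x : E k => kap (r * ‖x‖ ^ 2) :=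
    kap_smooth.comp (contDiff_const.mul (contDiff_norm_sq ℝ))
  have h0 := line_deriv2 hsm x y 0
  simp only [zero_smul, add_zero] at h0
  rw [← h0]
  have hq : ∀ t : ℝ, HasDerivAt (fun t : ℝ => r * ‖x + t • y‖ ^ 2)
      (r * (2 * inner ℝ x y + 2 * t * ‖y‖ ^ 2)) t := by
    intro t
    have e : (fun t : ℝ => r * ‖x + t • y‖ ^ 2)
        = fun t => r * (‖x‖ ^ 2 + 2 * inner ℝ x y * t + ‖y‖ ^ 2 * t ^ 2) := by
      funext t
      rw [norm_add_sq_real, inner_smul_right, norm_smul, mul_pow, Real.norm_eq_abs, sq_abs]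
      ring
    rw [e]
    have := ((((hasDerivAt_id t).const_mul (2 * inner ℝ x y)).const_add (‖x‖ ^ 2)).add
      ((hasDerivAt_pow 2 t).const_mul (‖y‖ ^ 2))).const_mul r
    refine this.congr_deriv ?_
    push_cast
    ring
  have h1 : deriv (fun t : ℝ => kap (r * ‖x + t • y‖ ^ 2)) = fun t =>
      Real.smoothTransition ((r * ‖x + t • y‖ ^ 2 - 1) / 3) *
        (r * (2 * inner ℝ x y + 2 * t * ‖y‖ ^ 2)) := by
    funext t
    exact ((kap_hasDerivAt _).comp t (hq t)).deriv
  rw [h1]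
  have hS : ∀ t : ℝ, HasDerivAt (fun t : ℝ => Real.smoothTransition ((t - 1) / 3))
      (deriv (fun t : ℝ => Real.smoothTransition ((t - 1) / 3)) t) t := fun t =>
    (smooth_st.differentiable (by simp)).differentiableAt.hasDerivAt
  have hS0 : ∀ t : ℝ, 0 ≤ deriv (fun t : ℝ => Real.smoothTransition ((t - 1) / 3)) t := by
    intro t
    have hm : Monotone fun t : ℝ => Real.smoothTransition ((t - 1) / 3) := fun a b hab =>
      Real.smoothTransition.monotone (by linarith)
    exact hm.deriv_nonneg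
  have h2 : HasDerivAt (fun t : ℝ =>
      Real.smoothTransition ((r * ‖x + t • y‖ ^ 2 - 1) / 3) *
        (r * (2 * inner ℝ x y + 2 * t * ‖y‖ ^ 2)))
      (deriv (fun t : ℝ => Real.smoothTransition ((t - 1) / 3)) (r * ‖x + (0 : ℝ) • y‖ ^ 2) *
          (r * (2 * inner ℝ x y + 2 * 0 * ‖y‖ ^ 2)) *
          (r * (2 * inner ℝ x y + 2 * 0 * ‖y‖ ^ 2)) +
        Real.smoothTransition ((r * ‖x + (0 : ℝ) • y‖ ^ 2 - 1) / 3) * (r * (2 * ‖y‖ ^ 2))) 0 := by
    have ha := (hS (r * ‖x + (0 : ℝ) • y‖ ^ 2)).comp 0 (hq 0)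
    have hb : HasDerivAt (fun t : ℝ => r * (2 * inner ℝ x y + 2 * t * ‖y‖ ^ 2))
        (r * (2 * ‖y‖ ^ 2)) 0 := by
      have := ((((hasDerivAt_id (0 : ℝ)).const_mul 2).mul_const (‖y‖ ^ 2)).const_add
        (2 * inner ℝ x y)).const_mul r
      refine this.congr_deriv ?_
      simp
    exact ha.mul hb
  rw [h2.deriv]
  simp only [zero_smul, add_zero]
  have h3 := mul_nonneg (hS0 (r * ‖x‖ ^ 2)) (mul_self_nonneg (r * (2 * inner ℝ x y + 2 * 0 * ‖y‖ ^ 2)))
  nlinarith [h3]

theorem ridge_smooth {k : ℕ} {φ : ℝ → ℝ} (hφ : ContDiff ℝ ∞ φ) (v : E k) :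
    ContDiff ℝ ∞ fun x : E k => φ (inner ℝ v x) :=
  hφ.comp (innerSL ℝ v).contDiff

theorem WR_smooth {k N : ℕ} {K : ℝ} (u : Fin N → E k) {ψ : Fin N → ℝ → ℝ} (c : ℝ)
    (h : Fam K ψ) : ContDiff ℝ ∞ (WR u ψ c) := by
  unfold WR
  exact (ContDiff.sum fun i _ => ridge_smooth (h.smooth i) (u i)).add
    (contDiff_const.mul (contDiff_norm_sq ℝ))

/-- second derivative of a ridge function -/
theorem ridge_line {k : ℕ} {φ : ℝ → ℝ} (hφ : ContDiff ℝ ∞ φ) (v x y : E k) (t : ℝ) :
    HasDerivAt (fun t : ℝ => φ (inner ℝ v (x + t • y)))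
        (deriv φ (inner ℝ v (x + t • y)) * inner ℝ v y) t ∧
      HasDerivAt (fun t : ℝ => deriv φ (inner ℝ v (x + t • y)) * inner ℝ v y)
        (deriv (deriv φ) (inner ℝ v (x + t • y)) * inner ℝ v y ^ 2) t := by
  have hφ' : ContDiff ℝ ∞ (deriv φ) := (contDiff_infty_iff_deriv.1 hφ).2
  have h0 : HasDerivAt (fun t : ℝ => inner ℝ v (x + t • y)) (inner ℝ v y) t := by
    have e : (fun t : ℝ => inner ℝ v (x + t • y)) = fun t : ℝ => inner ℝ v x + t * inner ℝ v y := by
      funext t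
      rw [inner_add_right, inner_smul_right]
    rw [e]
    simpa using ((hasDerivAt_id t).mul_const (inner ℝ v y)).const_add (inner ℝ v x)
  constructor
  · exact ((hφ.differentiable (by simp)).differentiableAt.hasDerivAt).comp t h0
  · have := (((hφ'.differentiable (by simp)).differentiableAt.hasDerivAt
      (x := inner ℝ v (x + t • y))).comp t h0).mul_const (inner ℝ v y)
    exact this.congr_deriv (by ring)

theorem WR_second {k N : ℕ} {K : ℝ} (u : Fin N → E k) {ψ : Fin N → ℝ → ℝ} (c : ℝ)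
    (h : Fam K ψ) (x y : E k) :
    fderiv ℝ (fderiv ℝ (WR u ψ c)) x y y =
      ∑ i, deriv (deriv (ψ i)) (inner ℝ (u i) x) * inner ℝ (u i) y ^ 2 + c * ‖y‖ ^ 2 := by
  have h0 := line_deriv2 (WR_smooth u c h) x y 0
  simp only [zero_smul, add_zero] at h0
  rw [← h0]
  have hn : ∀ t : ℝ, HasDerivAt (fun t : ℝ => c / 2 * ‖x + t • y‖ ^ 2)
      (c / 2 * (2 * inner ℝ x y + 2 * t * ‖y‖ ^ 2)) t := by
    intro t
    have e : (fun t : ℝ => c / 2 * ‖x + t • y‖ ^ 2)
        = fun t => c / 2 * (‖x‖ ^ 2 + 2 * inner ℝ x y * t + ‖y‖ ^ 2 * t ^ 2) := by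
      funext t
      rw [norm_add_sq_real, inner_smul_right, norm_smul, mul_pow, Real.norm_eq_abs, sq_abs]
      ring
    rw [e]
    have := ((((hasDerivAt_id t).const_mul (2 * inner ℝ x y)).const_add (‖x‖ ^ 2)).add
      ((hasDerivAt_pow 2 t).const_mul (‖y‖ ^ 2))).const_mul (c / 2)
    refine this.congr_deriv ?_
    push_cast
    ring
  have h1 : deriv (fun t : ℝ => WR u ψ c (x + t • y)) = fun t =>
      ∑ i, deriv (ψ i) (inner ℝ (u i) (x + t • y)) * inner ℝ (u i) y +
        c / 2 * (2 * inner ℝ x y + 2 * t * ‖y‖ ^ 2) := by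
    funext t
    exact ((HasDerivAt.fun_sum fun i _ => (ridge_line (h.smooth i) (u i) x y t).1).add
      (hn t)).deriv
  rw [h1]
  have h2 : HasDerivAt (fun t : ℝ =>
      ∑ i, deriv (ψ i) (inner ℝ (u i) (x + t • y)) * inner ℝ (u i) y +
        c / 2 * (2 * inner ℝ x y + 2 * t * ‖y‖ ^ 2))
      (∑ i, deriv (deriv (ψ i)) (inner ℝ (u i) (x + (0 : ℝ) • y)) * inner ℝ (u i) y ^ 2 +
        c / 2 * (2 * ‖y‖ ^ 2)) 0 := by
    have hb : HasDerivAt (fun t : ℝ => c / 2 * (2 * inner ℝ x y + 2 * t * ‖y‖ ^ 2))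
        (c / 2 * (2 * ‖y‖ ^ 2)) 0 := by
      have := ((((hasDerivAt_id (0 : ℝ)).const_mul 2).mul_const (‖y‖ ^ 2)).const_add
        (2 * inner ℝ x y)).const_mul (c / 2)
      refine this.congr_deriv ?_
      simp
    exact (HasDerivAt.fun_sum fun i _ => (ridge_line (h.smooth i) (u i) x y 0).2).add hb
  rw [h2.deriv]
  simp only [zero_smul, add_zero]
  ring

/-- second derivative of a quadratic form minus `WR` -/
theorem sub_second {k : ℕ} {f g : E k → ℝ} (hf : ContDiff ℝ ∞ f) (hg : ContDiff ℝ ∞ g) (M : ℝ)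
    (x y : E k) : fderiv ℝ (fderiv ℝ fun x => f x + M * g x) x y y =
      fderiv ℝ (fderiv ℝ f) x y y + M * fderiv ℝ (fderiv ℝ g) x y y := by
  have hf' : ContDiff ℝ ∞ (fderiv ℝ f) := hf.fderiv_right (by simp)
  have hg' : ContDiff ℝ ∞ (fderiv ℝ g) := hg.fderiv_right (by simp)
  have h1 : (fderiv ℝ fun x => f x + M * g x) = fun x => fderiv ℝ f x + M • fderiv ℝ g x := by
    funext x
    have a := (hf.differentiable (by simp)).differentiableAt.hasFDerivAt (x := x)
    have b := (hg.differentiable (by simp)).differentiableAt.hasFDerivAt (x := x)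
    exact (a.add (b.const_mul M)).fderiv
  rw [h1]
  have a := (hf'.differentiable (by simp)).differentiableAt.hasFDerivAt (x := x)
  have b := (hg'.differentiable (by simp)).differentiableAt.hasFDerivAt (x := x)
  have e : fderiv ℝ (fun x => fderiv ℝ f x + M • fderiv ℝ g x) x =
      fderiv ℝ (fderiv ℝ f) x + M • fderiv ℝ (fderiv ℝ g) x := (a.add (b.const_smul M)).fderiv
  rw [e]
  simp

theorem st_GLU : ST_GLU := by
  intro k N u ψ c K R hc hR hF
  set r : ℝ := 1 / R ^ 2 with hr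
  have hr0 : 0 < r := by positivity
  set Lam : ℝ := c + ∑ i, |K| * ‖u i‖ ^ 2 with hLam
  set A : E k → ℝ := fun x => Lam / 2 * ‖x‖ ^ 2 + (-1) * WR u ψ c x with hA
  have hWs := WR_smooth u c hF
  have hns : ContDiff ℝ ∞ fun x : E k => Lam / 2 * ‖x‖ ^ 2 :=
    contDiff_const.mul (contDiff_norm_sq ℝ)
  have hAs : ContDiff ℝ ∞ A := hns.add (contDiff_const.mul hWs)
  have hA2 : ∀ x y, 0 ≤ fderiv ℝ (fderiv ℝ A) x y y := by
    intro x y
    rw [hA, sub_second hns hWs (-1) x y, WR_second u c hF]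
    have e0 : fderiv ℝ (fderiv ℝ fun x : E k => Lam / 2 * ‖x‖ ^ 2) x y y = Lam * ‖y‖ ^ 2 := by
      have h1 := WR_second (N := 0) (K := 0) (ψ := fun _ _ => 0) (fun _ => (0 : E k)) Lam
        ⟨fun i => i.elim0, fun i => i.elim0, fun i => i.elim0, fun i => i.elim0⟩ x y
      have e1 : (WR (N := 0) (fun _ => (0 : E k)) (fun _ _ => 0) Lam)
          = fun x : E k => Lam / 2 * ‖x‖ ^ 2 := by
        funext x
        simp [WR]
      rw [e1] at h1
      simpa using h1
    rw [e0]
    have e2 : ∑ i, deriv (deriv (ψ i)) (inner ℝ (u i) x) * inner ℝ (u i) y ^ 2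
        ≤ (∑ i, |K| * ‖u i‖ ^ 2) * ‖y‖ ^ 2 := by
      rw [Finset.sum_mul]
      refine Finset.sum_le_sum fun i _ => ?_
      have h1 : inner ℝ (u i) y ^ 2 ≤ ‖u i‖ ^ 2 * ‖y‖ ^ 2 := by
        rw [← mul_pow]
        exact sq_le_sq' (by linarith [neg_abs_le (inner ℝ (u i) y), abs_real_inner_le_norm (u i) y])
          (real_inner_le_norm _ _)
      have h2 := hF.lo i (inner ℝ (u i) x)
      have h3 : deriv (deriv (ψ i)) (inner ℝ (u i) x) ≤ |K| := (hF.hi i _).trans (le_abs_self K)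
      calc deriv (deriv (ψ i)) (inner ℝ (u i) x) * inner ℝ (u i) y ^ 2
          ≤ |K| * (‖u i‖ ^ 2 * ‖y‖ ^ 2) := mul_le_mul h3 h1 (sq_nonneg _) (abs_nonneg K)
        _ = _ := by ring
    rw [hLam]
    nlinarith [e2]
  set f1 : E k → ℝ := fun x => Real.smoothTransition (r * ‖x‖ ^ 2 - 2) * A x with hf1
  have hth : ContDiff ℝ ∞ fun x : E k => Real.smoothTransition (r * ‖x‖ ^ 2 - 2) :=
    Real.smoothTransition.contDiff.comp ((contDiff_const.mul (contDiff_norm_sq ℝ)).sub
      contDiff_const)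
  have hf1s : ContDiff ℝ ∞ f1 := hth.mul hAs
  have hf1' : ContDiff ℝ ∞ (fderiv ℝ f1) := hf1s.fderiv_right (by simp)
  have hf1'' : ContDiff ℝ ∞ (fderiv ℝ (fderiv ℝ f1)) := hf1'.fderiv_right (by simp)
  obtain ⟨M0, hM0'⟩ := ((isCompact_closedBall (0 : E k) (2 * R)).image
    hf1''.continuous).isBounded.exists_norm_le
  have hM0 : ∀ x ∈ Metric.closedBall (0 : E k) (2 * R), ‖fderiv ℝ (fderiv ℝ f1) x‖ ≤ M0 :=
    fun x hx => hM0' _ ⟨x, hx, rfl⟩
  set g : E k → ℝ := fun x => kap (r * ‖x‖ ^ 2) with hg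
  have hgs : ContDiff ℝ ∞ g := kap_smooth.comp (contDiff_const.mul (contDiff_norm_sq ℝ))
  set d : ℝ := 2 * r * Real.smoothTransition (1 / 3) with hd
  have hd0 : 0 < d := by
    have := Real.smoothTransition.pos_of_pos (x := 1 / 3) (by norm_num)
    positivity
  set M : ℝ := |M0| / d with hM
  have hM00 : 0 ≤ M := by positivity
  have hqc : Continuous fun x : E k => r * ‖x‖ ^ 2 := by fun_prop
  have key : ∀ x y, 0 ≤ fderiv ℝ (fderiv ℝ fun x => f1 x + M * g x) x y y := by
    intro x y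
    rw [sub_second hf1s hgs M x y]
    have hk := kap_second r x y
    have hS := Real.smoothTransition.nonneg ((r * ‖x‖ ^ 2 - 1) / 3)
    have hk0 : 0 ≤ fderiv ℝ (fderiv ℝ g) x y y := le_trans (by positivity) hk
    rcases lt_or_ge (r * ‖x‖ ^ 2) 2 with h2 | h2
    · have he : f1 =ᶠ[𝓝 x] fun _ => 0 := by
        filter_upwards [hqc.continuousAt.eventually (gt_mem_nhds h2)] with z hz
        have : Real.smoothTransition (r * ‖z‖ ^ 2 - 2) = 0 :=
          Real.smoothTransition.zero_of_nonpos (by linarith)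
        simp [hf1, this]
      have h3 : fderiv ℝ (fderiv ℝ f1) x = 0 := by
        rw [he.fderiv.fderiv_eq]
        simp
      rw [h3]
      have := mul_nonneg hM00 hk0
      simpa using this
    rcases lt_or_ge 3 (r * ‖x‖ ^ 2) with h3 | h3
    · have he : f1 =ᶠ[𝓝 x] A := by
        filter_upwards [hqc.continuousAt.eventually (lt_mem_nhds h3)] with z hz
        have : Real.smoothTransition (r * ‖z‖ ^ 2 - 2) = 1 :=
          Real.smoothTransition.one_of_one_le (by linarith)
        simp [hf1, this]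
      rw [he.fderiv.fderiv_eq]
      have := mul_nonneg hM00 hk0
      linarith [hA2 x y]
    · have hx : x ∈ Metric.closedBall (0 : E k) (2 * R) := by
        rw [mem_closedBall_zero_iff]
        have h4 : ‖x‖ ^ 2 ≤ (2 * R) ^ 2 := by
          have h5 : r * ‖x‖ ^ 2 * R ^ 2 = ‖x‖ ^ 2 := by
            rw [hr]
            field_simp
          nlinarith [sq_nonneg R, pow_pos hR 2]
        exact le_of_sq_le_sq h4 (by positivity)
      have h5 := hM0 x hx
      have h6 : |fderiv ℝ (fderiv ℝ f1) x y y| ≤ M0 * ‖y‖ ^ 2 := by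
        have a1 := (fderiv ℝ (fderiv ℝ f1) x y).le_opNorm y
        have a2 := (fderiv ℝ (fderiv ℝ f1) x).le_opNorm y
        rw [Real.norm_eq_abs] at a1
        calc |fderiv ℝ (fderiv ℝ f1) x y y| ≤ ‖fderiv ℝ (fderiv ℝ f1) x y‖ * ‖y‖ := a1
          _ ≤ ‖fderiv ℝ (fderiv ℝ f1) x‖ * ‖y‖ * ‖y‖ := by gcongr
          _ ≤ M0 * ‖y‖ * ‖y‖ := by gcongr
          _ = _ := by ring
      have h7 : Real.smoothTransition (1 / 3) ≤ Real.smoothTransition ((r * ‖x‖ ^ 2 - 1) / 3) :=
        Real.smoothTransition.monotone (by linarith)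
      have h8 : d * ‖y‖ ^ 2 ≤ fderiv ℝ (fderiv ℝ g) x y y := by
        refine le_trans ?_ hk
        rw [hd]
        gcongr
      have h9 : M * (d * ‖y‖ ^ 2) = |M0| * ‖y‖ ^ 2 := by
        rw [hM]
        field_simp
      have h10 := mul_le_mul_of_nonneg_left h8 hM00
      have h11 : M0 * ‖y‖ ^ 2 ≤ |M0| * ‖y‖ ^ 2 := by gcongr; exact le_abs_self M0
      linarith [(abs_le.1 h6).1]
  have hsm : ContDiff ℝ ∞ fun x => f1 x + M * g x := hf1s.add (contDiff_const.mul hgs)
  have hev : ∀ x, f1 (-x) + M * g (-x) = f1 x + M * g x := by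
    intro x
    have : WR u ψ c (-x) = WR u ψ c x := by
      simp [WR, inner_neg_right, hF.even]
    simp [hf1, hg, hA, this]
  have hcv := convex_of_second hsm key
  have h0 : ∀ x : E k, ‖x‖ ≤ R → f1 x + M * g x = 0 := by
    intro x hx
    have h1 : r * ‖x‖ ^ 2 ≤ 1 := by
      rw [hr, one_div, inv_mul_le_iff₀ (by positivity), mul_one]
      exact pow_le_pow_left₀ (norm_nonneg x) hx 2
    have h2 : Real.smoothTransition (r * ‖x‖ ^ 2 - 2) = 0 :=
      Real.smoothTransition.zero_of_nonpos (by linarith)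
    simp [hf1, hg, h2, kap_zero h1]
  refine ⟨fun x => f1 x + M * g x, Lam + 2 * M * r, 2 * R, M * (kap 4 - 4), ?_, hsm, hev, hcv, ?_,
    h0, ?_⟩
  · have : 0 ≤ ∑ i, |K| * ‖u i‖ ^ 2 := Finset.sum_nonneg fun i _ => by positivity
    have h2 : 0 ≤ 2 * M * r := by positivity
    rw [hLam]
    linarith
  · intro x
    have h1 := hcv.2 (mem_univ x) (mem_univ (-x)) (by norm_num : (0 : ℝ) ≤ 1 / 2)
      (by norm_num : (0 : ℝ) ≤ 1 / 2) (by norm_num)
    have h2 : ((1 : ℝ) / 2) • x + ((1 : ℝ) / 2) • (-x) = 0 := by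
      rw [smul_neg, add_neg_cancel]
    rw [h2] at h1
    have h3 := h0 0 (by simpa using hR.le)
    have h4 := hev x
    simp only [smul_eq_mul] at h1
    linarith
  · intro x hx
    have h1 : 4 ≤ r * ‖x‖ ^ 2 := by
      have h2 : (2 * R) ^ 2 ≤ ‖x‖ ^ 2 := pow_le_pow_left₀ (by positivity) hx 2
      have h3 : r * (2 * R) ^ 2 = 4 := by
        rw [hr]
        field_simp
        norm_num
      calc (4 : ℝ) = r * (2 * R) ^ 2 := h3.symm
        _ ≤ _ := by gcongr
    have h2 : Real.smoothTransition (r * ‖x‖ ^ 2 - 2) = 1 :=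
      Real.smoothTransition.one_of_one_le (by linarith)
    simp only [hf1, hg, h2, kap_four h1, hA]
    ring

end Pool.Agent.Helper83.MM
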