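import Mathlib

/-!
Project MM (MP_10bc19_gt), block B8: the reduction layer. Definitions and statements.
-/

open MeasureTheory
open scoped ContDiff ENNReal

namespace Pool.Agent.Helper83.MM

/-- Euclidean space. -/
abbrev E (k : ℕ) := EuclideanSpace ℝ (Fin k)

/-- `x · ∇Ψ` -/
noncomputable def D1 {k : ℕ} (Ψ : E k → ℝ) (x : E k) : ℝ := fderiv ℝ Ψ x x

/-- `x · ∇Ψ + D²Ψ (x, x)`, the function obtained from `Ψ` by applying `x · ∇` twice -/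
noncomputable def D2 {k : ℕ} (Ψ : E k → ℝ) (x : E k) : ℝ :=
  fderiv ℝ Ψ x x + fderiv ℝ (fderiv ℝ Ψ) x x x

/-- integrals against `exp (- W)` -/
noncomputable def JJ {k : ℕ} (W F : E k → ℝ) : ℝ := ∫ x, F x * Real.exp (-(W x))

/-- the sum of the potentials -/
noncomputable def SS {k N : ℕ} (Ψ : Fin N → E k → ℝ) (x : E k) : ℝ := ∑ i, Ψ i x

/-- the inequality `(★)` for the family `Ψ` and the coefficients `σ` -/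
def Star {k N : ℕ} (Ψ : Fin N → E k → ℝ) (σ : Fin N → ℝ) : Prop :=
  JJ (SS Ψ) (fun _ => 1) * JJ (SS Ψ) (fun x => (∑ i, σ i * D1 (Ψ i) x) ^ 2) -
      JJ (SS Ψ) (fun x => ∑ i, σ i * D1 (Ψ i) x) ^ 2 ≤
    JJ (SS Ψ) (fun _ => 1) * JJ (SS Ψ) fun x => ∑ i, σ i ^ 2 * D2 (Ψ i) x

/-- STAR: the output of the block B7. -/
def ST_STAR : Prop := ∀ (k N : ℕ) (Ψ : Fin N → E k → ℝ) (c R b : ℝ), 0 < c →
  (∀ i, ContDiff ℝ ∞ (Ψ i)) → (∀ i x, Ψ i (-x) = Ψ i x) → (∀ i, ConvexOn ℝ Set.univ (Ψ i)) →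
  (∀ x, R ≤ ‖x‖ → SS Ψ x = ‖x‖ ^ 2 / 2 + b) →
  (∀ x y, c * ‖y‖ ^ 2 ≤ ∑ i, fderiv ℝ (fderiv ℝ (Ψ i)) x y y) →
  ∀ σ : Fin N → ℝ, Star Ψ σ

/-- families of smooth even convex functions of one variable with bounded second derivative -/
structure Fam {N : ℕ} (K : ℝ) (ψ : Fin N → ℝ → ℝ) : Prop where
  smooth : ∀ i, ContDiff ℝ ∞ (ψ i)
  even : ∀ i t, ψ i (-t) = ψ i t
  lo : ∀ i t, 0 ≤ deriv (deriv (ψ i)) t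
  hi : ∀ i t, deriv (deriv (ψ i)) t ≤ K

/-- the potential `∑ ψ_i (⟨u_i, x⟩) + c ‖x‖² / 2` -/
noncomputable def WR {k N : ℕ} (u : Fin N → E k) (ψ : Fin N → ℝ → ℝ) (c : ℝ) (x : E k) : ℝ :=
  ∑ i, ψ i (inner ℝ (u i) x) + c / 2 * ‖x‖ ^ 2

/-- SCL: scaling. -/
def ST_SCL : Prop := ∀ (k N : ℕ) (Ψ : Fin N → E k → ℝ) (σ : Fin N → ℝ) (r : ℝ), 0 < r →
  (∀ i, ContDiff ℝ ∞ (Ψ i)) → Star (fun i x => Ψ i (r • x)) σ → Star Ψ σ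

/-- GLU: the gluing function. -/
def ST_GLU : Prop := ∀ (k N : ℕ) (u : Fin N → E k) (ψ : Fin N → ℝ → ℝ) (c K R : ℝ), 0 < c →
  0 < R → Fam K ψ → ∃ (Ψ₀ : E k → ℝ) (lam R' b : ℝ), 0 < lam ∧ ContDiff ℝ ∞ Ψ₀ ∧
    (∀ x, Ψ₀ (-x) = Ψ₀ x) ∧ ConvexOn ℝ Set.univ Ψ₀ ∧ (∀ x, 0 ≤ Ψ₀ x) ∧
    (∀ x, ‖x‖ ≤ R → Ψ₀ x = 0) ∧
    ∀ x, R' ≤ ‖x‖ → WR u ψ c x + Ψ₀ x = lam / 2 * ‖x‖ ^ 2 + b

/-- RST: the inequality `(★)` for ridge functions and a Gaussian factor. -/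
def ST_RST : Prop := ∀ (k N : ℕ) (u : Fin N → E k) (ψ : Fin N → ℝ → ℝ) (c K : ℝ)
  (σ : Fin N → ℝ), 0 < c → Fam K ψ →
  JJ (WR u ψ c) (fun _ => 1) *
      JJ (WR u ψ c) (fun x => (∑ i, σ i * (inner ℝ (u i) x * deriv (ψ i) (inner ℝ (u i) x))) ^ 2) -
      JJ (WR u ψ c) (fun x => ∑ i, σ i * (inner ℝ (u i) x * deriv (ψ i) (inner ℝ (u i) x))) ^ 2 ≤
    JJ (WR u ψ c) (fun _ => 1) *
      JJ (WR u ψ c) fun x => ∑ i, σ i ^ 2 * (inner ℝ (u i) x * deriv (ψ i) (inner ℝ (u i) x) +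
        inner ℝ (u i) x ^ 2 * deriv (deriv (ψ i)) (inner ℝ (u i) x))

/-- the integral as a function of the scaling exponents -/
noncomputable def GG {k N : ℕ} (u : Fin N → E k) (ψ : Fin N → ℝ → ℝ) (c : ℝ) (a : Fin N → ℝ) :
    ℝ :=
  ∫ x : E k, Real.exp (-(∑ i, ψ i (Real.exp (a i) * inner ℝ (u i) x) + c / 2 * ‖x‖ ^ 2))

/-- RLC: log-concavity of the integral. -/
def ST_RLC : Prop := ∀ (k N : ℕ) (u : Fin N → E k) (ψ : Fin N → ℝ → ℝ) (c K : ℝ)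
  (a b : Fin N → ℝ) (l m : ℝ), 0 < c → Fam K ψ → 0 < l → 0 < m → l + m = 1 →
  GG u ψ c a ^ l * GG u ψ c b ^ m ≤ GG u ψ c fun i => l * a i + m * b i

/-- CUT: the functions `t ^ (2 m)` cut off at a large height. -/
def ST_CUT : Prop := ∀ (m : ℕ) (ρ : ℝ), 1 ≤ m → 0 < ρ → ∃ (ψ : ℝ → ℝ) (K : ℝ),
  ContDiff ℝ ∞ ψ ∧ (∀ t, ψ (-t) = ψ t) ∧ (∀ t, 0 ≤ deriv (deriv ψ) t) ∧
  (∀ t, deriv (deriv ψ) t ≤ K) ∧ (∀ t, 0 ≤ ψ t) ∧ ∀ t, |t| ≤ ρ → ψ t = t ^ (2 * m)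

/-- PLC: log-concavity for the even powers. -/
def ST_PLC : Prop := ∀ (k N m : ℕ) (u : Fin N → E k) (a b : Fin N → ℝ) (l l' : ℝ), 1 ≤ m →
  0 < l → 0 < l' → l + l' = 1 →
  (∫⁻ x : E k, ENNReal.ofReal (Real.exp (-∑ i, (Real.exp (a i) * inner ℝ (u i) x) ^ (2 * m)))) ^ l *
    (∫⁻ x : E k,
      ENNReal.ofReal (Real.exp (-∑ i, (Real.exp (b i) * inner ℝ (u i) x) ^ (2 * m)))) ^ l' ≤
    ∫⁻ x : E k, ENNReal.ofReal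
      (Real.exp (-∑ i, (Real.exp (l * a i + l' * b i) * inner ℝ (u i) x) ^ (2 * m)))

end Pool.Agent.Helper83.MM
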